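import Pool.Agent.H16.SC.Targets

/-!
# Block B1 of MP_f2954d_ag: modules KCN and KET
-/

open Filter Topology

namespace Pool.Agent.H79.SC

open SCB

section

variable {N P : Type} [NormedAddCommGroup N] [NormedSpace ℝ N] {n : ℕ}
  (X : Geo N P n)

lemma nef_add {a b : N} (ha : a ∈ X.Nef) (hb : b ∈ X.Nef) : a + b ∈ X.Nef :=
  map_mem_closure₂ continuous_add ha hb (fun x hx y hy => X.G_add x hx y hy)

lemma nef_smul {a : N} (ha : a ∈ X.Nef) {c : ℝ} (hc : 0 ≤ c) : c • a ∈ X.Nef := by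
  have hq : ∀ q : ℚ, 0 < q → (q : ℝ) • a ∈ X.Nef := fun q hq =>
    map_mem_closure (continuous_const_smul (q : ℝ)) ha (fun x hx => X.G_smul x hx q hq)
  have hcl : IsClosed {t : ℝ | t • a ∈ X.Nef} :=
    isClosed_closure.preimage (continuous_id.smul continuous_const)
  have hmem : c ∈ closure {x : ℝ | ∃ q : ℚ, 0 < q ∧ x = q} := by
    rw [Metric.mem_closure_iff]
    intro ε hε
    obtain ⟨q, hq1, hq2⟩ := exists_rat_btwn (show c < c + ε by linarith)
    refine ⟨q, ⟨q, ?_, rfl⟩, ?_⟩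
    · have : (0 : ℝ) < q := lt_of_le_of_lt hc hq1
      exact_mod_cast this
    · rw [Real.dist_eq, abs_lt]
      constructor <;> linarith
  have hsub : closure {x : ℝ | ∃ q : ℚ, 0 < q ∧ x = q} ⊆ {t : ℝ | t • a ∈ X.Nef} := by
    apply closure_minimal _ hcl
    rintro x ⟨q, hq0, rfl⟩
    exact hq q hq0
  exact hsub hmem

lemma nef_zero : (0 : N) ∈ X.Nef := by
  obtain ⟨g, hg⟩ := X.G_nonempty
  have := nef_smul X (subset_closure hg) (le_refl 0)
  simpa using this

lemma nef_sum {κ : Type} (s : Finset κ) (f : κ → N) (h : ∀ i ∈ s, f i ∈ X.Nef) :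
    ∑ i ∈ s, f i ∈ X.Nef := by
  classical
  induction s using Finset.induction_on with
  | empty => simpa using nef_zero X
  | insert i s hi ih =>
    rw [Finset.sum_insert hi]
    exact nef_add X (h i (by simp)) (ih fun j hj => h j (by simp [hj]))

lemma cone_sub : Cone X.G ⊆ X.Nef := by
  rintro x ⟨r, g, c, h, rfl⟩
  exact nef_sum X _ _ fun i _ => nef_smul X (subset_closure (h i).1) (h i).2.le

lemma nef_seg {g x : N} {t s : ℝ} (hg : g ∈ X.Nef) (ht : 0 < t) (h : g + t • x ∈ X.Nef)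
    (hs : 0 ≤ s) (hst : s ≤ t) : g + s • x ∈ X.Nef := by
  have e : g + s • x = (1 - s / t) • g + (s / t) • (g + t • x) := by
    rw [smul_add, smul_smul, div_mul_cancel₀ _ ht.ne', sub_smul, one_smul]
    abel
  rw [e]
  refine nef_add X (nef_smul X hg ?_) (nef_smul X h (by positivity))
  rw [sub_nonneg, div_le_one ht]
  exact hst

lemma nef_dir {g : N} (hg : g ∈ X.G) (x : N) :
    ∃ t : ℝ, 0 < t ∧ ∀ s : ℝ, |s| ≤ t → g + s • x ∈ X.Nef := by
  obtain ⟨t₁, h1, h1'⟩ := X.G_open g hg x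
  obtain ⟨t₂, h2, h2'⟩ := X.G_open g hg (-x)
  refine ⟨min t₁ t₂, lt_min h1 h2, fun s hs => ?_⟩
  rcases le_total 0 s with h | h
  · rw [abs_of_nonneg h] at hs
    exact nef_seg X (subset_closure hg) h1 (cone_sub X h1') h (hs.trans (min_le_left _ _))
  · rw [abs_of_nonpos h] at hs
    have := nef_seg X (subset_closure hg) h2 (cone_sub X h2') (neg_nonneg.2 h)
      (hs.trans (min_le_right _ _))
    rwa [smul_neg, neg_smul, neg_neg] at this

variable [FiniteDimensional ℝ N]

lemma G_sub_amp {g : N} (hg : g ∈ X.G) : g ∈ X.Amp := by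
  classical
  set b := Module.finBasis ℝ N with hb
  have key : ∀ S : Finset (Fin (Module.finrank ℝ N)), ∃ ε : ℝ, 0 < ε ∧
      ∀ c : Fin (Module.finrank ℝ N) → ℝ, (∀ i, |c i| ≤ ε) → g + ∑ i ∈ S, c i • b i ∈ X.Nef := by
    intro S
    induction S using Finset.induction_on with
    | empty =>
      refine ⟨1, one_pos, fun c _ => ?_⟩
      rw [Finset.sum_empty, add_zero]
      exact subset_closure hg
    | insert j S hj ih =>
      obtain ⟨ε, hε, h⟩ := ih
      obtain ⟨t, ht, h'⟩ := nef_dir X hg (b j)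
      refine ⟨min ε t / 2, by positivity, fun c hc => ?_⟩
      have h1 := h (fun i => 2 * c i) (fun i => by
        rw [abs_mul, abs_two]
        have := hc i
        have := min_le_left ε t
        linarith)
      have h2 := h' (2 * c j) (by
        rw [abs_mul, abs_two]
        have := hc j
        have := min_le_right ε t
        linarith)
      have e : g + ∑ i ∈ insert j S, c i • b i
          = (1 / 2 : ℝ) • (g + ∑ i ∈ S, (2 * c i) • b i) + (1 / 2 : ℝ) • (g + (2 * c j) • b j) := by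
        rw [Finset.sum_insert hj]
        simp only [mul_smul, ← Finset.smul_sum]
        module
      rw [e]
      exact nef_add X (nef_smul X h1 (by norm_num)) (nef_smul X h2 (by norm_num))
  obtain ⟨ε, hε, h⟩ := key Finset.univ
  refine mem_interior.2 ⟨{x | ‖b.equivFun (x - g)‖ < ε}, ?_, ?_, ?_⟩
  · intro x hx
    have hx' : ‖b.equivFun (x - g)‖ < ε := hx
    have h1 := h (b.equivFun (x - g)) (fun i => (norm_le_pi_norm (b.equivFun (x - g)) i).trans hx'.le)
    rw [b.sum_equivFun] at h1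
    simpa using h1
  · have hc0 : Continuous (b.equivFun : N → (Fin (Module.finrank ℝ N) → ℝ)) :=
      LinearMap.continuous_of_finiteDimensional
        (b.equivFun : N →ₗ[ℝ] (Fin (Module.finrank ℝ N) → ℝ))
    have hc : Continuous fun x : N => ‖b.equivFun (x - g)‖ :=
      (hc0.comp (continuous_id.sub continuous_const)).norm
    exact isOpen_lt hc continuous_const
  · simp [hε]

end

theorem kcn : T_CN := by
  intro N P _ _ _ n X
  refine ⟨fun a ha b hb => nef_add X ha hb, fun a ha c hc => nef_smul X ha hc,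
    fun g hg => G_sub_amp X hg, fun a ha => ?_, fun a ha b hb => ?_, fun a ha c hc => ?_⟩
  · obtain ⟨ρ, hρ, h⟩ := Metric.isOpen_iff.1 (isOpen_interior (s := X.Nef)) a ha
    refine ⟨2 / ρ, by positivity, fun x => ?_⟩
    by_cases hx : x = 0
    · subst hx
      simpa using nef_zero X
    have hx0 : 0 < ‖x‖ := norm_pos_iff.2 hx
    have hmem : a + ((ρ / 2) * ‖x‖⁻¹) • x ∈ X.Nef := by
      apply interior_subset
      apply h
      rw [Metric.mem_ball, dist_eq_norm, add_sub_cancel_left, norm_smul, norm_mul, norm_inv,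
        norm_norm, mul_assoc, inv_mul_cancel₀ hx0.ne', mul_one, Real.norm_of_nonneg (by positivity)]
      linarith
    have e : (2 / ρ * ‖x‖) • a + x = (2 / ρ * ‖x‖) • (a + ((ρ / 2) * ‖x‖⁻¹) • x) := by
      rw [smul_add, smul_smul]
      have : 2 / ρ * ‖x‖ * (ρ / 2 * ‖x‖⁻¹) = 1 := by field_simp
      rw [this, one_smul]
    rw [e]
    exact nef_smul X hmem (by positivity)
  · have ho : IsOpen ((fun x : N => x + b) '' X.Amp) :=
      (Homeomorph.addRight b).isOpenMap _ isOpen_interior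
    have hsub : (fun x : N => x + b) '' X.Amp ⊆ X.Nef := by
      rintro _ ⟨x, hx, rfl⟩
      exact nef_add X (interior_subset hx) hb
    exact interior_maximal hsub ho ⟨a, ha, rfl⟩
  · have ho : IsOpen ((fun x : N => c • x) '' X.Amp) :=
      (isOpenMap_smul₀ hc.ne') _ isOpen_interior
    have hsub : (fun x : N => c • x) '' X.Amp ⊆ X.Nef := by
      rintro _ ⟨x, hx, rfl⟩
      exact nef_smul X (interior_subset hx) hc.le
    exact interior_maximal hsub ho ⟨a, ha, rfl⟩

/-- the kernel as a submodule -/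
def kerSub {N P ι : Type} [AddCommGroup N] [Module ℝ N] [Fintype ι] {n : ℕ} (X : Geo N P n)
    (hn : Fintype.card ι + 2 = n) (L : ι → N) : Submodule ℝ N where
  carrier := {x | X.Ker L x}
  add_mem' := by
    intro a b ha hb y
    rw [X.I_add _ _ (by simp [card_ms]; omega), ha y, hb y, add_zero]
  zero_mem' := by
    intro y
    rw [X.I_zero (by simp [card_ms]; omega)]
  smul_mem' := by
    intro c a ha y
    rw [X.I_smul _ _ (by simp [card_ms]; omega), ha y, mul_zero]

theorem ket (hCN : T_CN) : T_ET := by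
  intro N P ι _ _ _ _ n X A hA hn L hNS hThm
  obtain ⟨hadd, hsmul, -, -, -, -⟩ := hCN N P n X
  set K := kerSub X hn L with hK
  have hVK : X.V L ≤ K := by
    refine Submodule.span_le.2 ?_
    rintro _ ⟨D, hD, rfl⟩
    exact hD
  have hlt : Module.finrank ℝ (X.V L) < Module.finrank ℝ K := by
    apply Submodule.finrank_lt_finrank_of_lt
    refine lt_of_le_of_ne hVK fun h => hThm fun x hx => ?_
    rw [h]
    exact hx
  -- the approximations
  have happ : ∀ k : ℕ, ∃ g : ι → N, (∀ i, g i ∈ X.G) ∧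
      ∀ i, ‖g i - (L i + (1 / ((k : ℝ) + 1)) • A)‖ ≤ (1 / ((k : ℝ) + 1)) ^ 2 := by
    intro k
    have h1 : ∀ i, ∃ g : N, g ∈ X.G ∧
        ‖g - (L i + (1 / ((k : ℝ) + 1)) • A)‖ ≤ (1 / ((k : ℝ) + 1)) ^ 2 := by
      intro i
      have hmem : L i + (1 / ((k : ℝ) + 1)) • A ∈ closure X.G :=
        hadd _ (hNS.1 i) _ (hsmul _ (subset_closure hA) _ (by positivity))
      obtain ⟨g, hg, hd⟩ := Metric.mem_closure_iff.1 hmem ((1 / ((k : ℝ) + 1)) ^ 2) (by positivity)
      refine ⟨g, hg, ?_⟩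
      rw [dist_comm, dist_eq_norm] at hd
      exact hd.le
    choose g hg hg' using h1
    exact ⟨g, hg, hg'⟩
  choose g hgG hgd using happ
  have hη : ∀ k : ℕ, ∃ x : N, x ∈ K ∧ ‖x‖ = 1 ∧ ∀ v ∈ X.V L, X.I (x ::ₘ v ::ₘ ms (g k)) = 0 := by
    intro k
    have hsb := X.symBil_q (s := ms (g k)) (by rw [card_ms]; omega)
    let B : N →ₗ[ℝ] N →ₗ[ℝ] ℝ := LinearMap.mk₂ ℝ (X.q (ms (g k))) hsb.add hsb.smul
      (fun x a b => hsb.add' x a b) (fun c x a => hsb.smul' c x a)
    let F : K →ₗ[ℝ] (X.V L) →ₗ[ℝ] ℝ := B.compl₁₂ K.subtype (X.V L).subtype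
    have hker : LinearMap.ker F ≠ ⊥ := by
      apply LinearMap.ker_ne_bot_of_finrank_lt
      rw [show Module.finrank ℝ (X.V L →ₗ[ℝ] ℝ) = Module.finrank ℝ (X.V L) from
        Subspace.dual_finrank_eq]
      exact hlt
    obtain ⟨x, hx, hx0⟩ := Submodule.exists_mem_ne_zero_of_ne_bot hker
    have hx0' : (x : N) ≠ 0 := by simpa using hx0
    have hnx : ‖(x : N)‖ ≠ 0 := norm_ne_zero_iff.2 hx0'
    refine ⟨‖(x : N)‖⁻¹ • (x : N), K.smul_mem _ x.2, ?_, fun v hv => ?_⟩
    · rw [norm_smul, norm_inv, norm_norm, inv_mul_cancel₀ hnx]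
    · rw [X.I_smul _ _ (by simp [card_ms]; omega)]
      have h1 := congrArg (fun f => f (⟨v, hv⟩ : X.V L)) (LinearMap.mem_ker.1 hx)
      have h2 : X.I ((x : N) ::ₘ v ::ₘ ms (g k)) = 0 := by
        simpa [F, B, Geo.q] using h1
      rw [h2, mul_zero]
  choose η hηK hηn hηV using hη
  obtain ⟨η₀, hη₀, φ, hφ, hlim⟩ := (isCompact_sphere (0 : N) 1).tendsto_subseq
    (x := η) (fun k => by rw [mem_sphere_zero_iff_norm, hηn k])
  have he : ∀ k : ℕ, (0 : ℝ) < 1 / ((k : ℝ) + 1) := fun k => by positivity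
  have hlime : Tendsto (fun k : ℕ => 1 / ((k : ℝ) + 1)) atTop (𝓝 0) :=
    tendsto_one_div_add_atTop_nhds_zero_nat
  have hga : ∀ (k : ℕ) i, L i + (1 / ((k : ℝ) + 1)) • ((1 / ((k : ℝ) + 1))⁻¹ • (g k i - L i)) = g k i := by
    intro k i
    rw [smul_smul, mul_inv_cancel₀ (he k).ne', one_smul]
    abel
  refine ⟨fun k => 1 / ((φ k : ℝ) + 1), fun k i => (1 / ((φ k : ℝ) + 1))⁻¹ • (g (φ k) i - L i),
    fun k => η (φ k), η₀, fun k => he _, hlime.comp hφ.tendsto_atTop, fun i => ?_,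
    fun k i => ?_, hlim, mem_sphere_zero_iff_norm.1 hη₀, ?_, fun k v hv => ?_⟩
  · have h1 : Tendsto (fun k : ℕ => (1 / ((k : ℝ) + 1))⁻¹ • (g k i - L i)) atTop (𝓝 A) := by
      rw [tendsto_iff_norm_sub_tendsto_zero]
      refine squeeze_zero (fun k => norm_nonneg _) (fun k => ?_) hlime
      have e : (1 / ((k : ℝ) + 1))⁻¹ • (g k i - L i) - A
          = (1 / ((k : ℝ) + 1))⁻¹ • (g k i - (L i + (1 / ((k : ℝ) + 1)) • A)) := by
        rw [← sub_sub, smul_sub _ (g k i - L i), smul_smul, inv_mul_cancel₀ (he k).ne', one_smul]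
      rw [e, norm_smul, norm_inv, Real.norm_of_nonneg (he k).le]
      calc (1 / ((k : ℝ) + 1))⁻¹ * ‖g k i - (L i + (1 / ((k : ℝ) + 1)) • A)‖
          ≤ (1 / ((k : ℝ) + 1))⁻¹ * (1 / ((k : ℝ) + 1)) ^ 2 :=
            mul_le_mul_of_nonneg_left (hgd k i) (inv_nonneg.2 (he k).le)
        _ = 1 / ((k : ℝ) + 1) := by
            field_simp
    exact h1.comp hφ.tendsto_atTop
  · rw [hga]
    exact hgG _ _
  · have hcl : IsClosed (K : Set N) := Submodule.closed_of_finiteDimensional K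
    exact hcl.mem_of_tendsto hlim (Eventually.of_forall fun k => hηK (φ k))
  · have : (fun i => L i + (1 / ((φ k : ℝ) + 1)) • ((1 / ((φ k : ℝ) + 1))⁻¹ • (g (φ k) i - L i)))
        = g (φ k) := by
      funext i
      exact hga _ _
    rw [this]
    exact hηV _ v hv

end Pool.Agent.H79.SC
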